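import Pool.Agent.H63.SEP.Stmts

set_option linter.unusedVariables false
set_option synthInstance.maxSize 100000

namespace SW.SEP

open SW

section
variable {M : Type} [SetStr M] [ZF M]

private theorem cts_fnt_seq {A v : M} (hs : SqFacts M) (hv : E v (SQ A)) : Fnt v := by
  obtain ⟨hn, hf⟩ := hs.dm hv
  have h1 : Fnt (img (dmn v) (fun i => opair i (app v i))) :=
    finF.img _ inferInstance (finF.nat hn)
  refine finF.sub h1 fun z hz => ?_
  obtain ⟨x, y, hx, hy, rfl⟩ := hf.1 z hz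
  rw [mem_img]
  exact ⟨x, hx, by rw [(hs.fapp' hf hz).2.2]⟩

private theorem cts_fnt_sing (x : M) : Fnt (sing x) :=
  finF.sub (finF.ins (a := x) finF.emp) fun z hz => by
    rw [mem_sing] at hz
    rw [hz]
    exact mem_ins.2 (Or.inr rfl)

private theorem cts_SQ (hs : SqFacts M) (hc : CbFacts M) {A : M} (hA : Cb A) : Cb (SQ A) := by
  refine hc.sub (hc.fsub (hc.prod hc.om hA)) fun v hv => ?_
  rw [mem_sep, mem_pow]
  refine ⟨?_, cts_fnt_seq hs hv⟩
  obtain ⟨hn, hf⟩ := hs.dm hv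
  intro z hz
  obtain ⟨x, y, hx, hy, rfl⟩ := hf.1 z hz
  exact mem_prod.2 ⟨Trans_om _ hn x hx, hy⟩

end

theorem sep_cts (h1 : SQFStmt) (h2 : CBTStmt) : CTSStmt := by
  intro M _ _
  have hs : SqFacts M := h1 M
  have hc : CbFacts M := h2 M
  have hoo : Cb (prod om om : M) := hc.prod hc.om hc.om
  have htwo : Cb (two : M) := hc.fin (by
    refine finF.sub (finF.ins (a := sing emp) (finF.ins (a := emp) finF.emp)) fun z hz => ?_
    unfold two at hz
    rw [mem_upair] at hz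
    rcases hz with rfl | rfl
    · exact mem_ins.2 (Or.inl (mem_ins.2 (Or.inr rfl)))
    · exact mem_ins.2 (Or.inr rfl))
  have hLL : Cb (LL : M) := by
    unfold LL
    refine hc.bun (hc.prod (hc.fin (cts_fnt_sing _)) hc.om)
      (hc.prod (hc.fin (cts_fnt_sing _)) (hc.prod hc.om (hc.prod hc.om (hc.prod htwo hc.om))))
  have hSQ : ∀ A : M, Cb A → Cb (SQ A) := fun A hA => cts_SQ hs hc hA
  have hSo : Cb (SQ om : M) := hSQ _ hc.om
  refine ⟨hSQ, hLL, hSQ _ hLL, hSo, ?_, hoo⟩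
  unfold Q4
  exact hc.prod hSo (hc.prod hSo (hc.prod hSo hSo))

end SW.SEP
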