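import Pool.Agent.H63.SEP.Stmts

set_option linter.unusedVariables false
set_option synthInstance.maxSize 100000

namespace SW.SEP

open SW

section
variable {M : Type} [SetStr M] [ZF M]

/-- the union of a chain of finite sequences -/
noncomputable def dlm (g : M) : M := sUn (img om (fun n => app g n))

theorem mem_dlm {g z : M} : E z (dlm g) ↔ ∃ n, E n om ∧ E z (app g n) := by
  unfold dlm
  rw [mem_sUn]
  constructor
  · rintro ⟨y, hy, hz⟩
    rw [mem_img] at hy
    obtain ⟨n, hn, rfl⟩ := hy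
    exact ⟨n, hn, hz⟩
  · rintro ⟨n, hn, hz⟩
    exact ⟨_, mem_img.2 ⟨n, hn, rfl⟩, hz⟩

theorem dlm_facts (hs : SqFacts M) {A g : M} (h0 : app g emp = emp)
    (h1 : ∀ n, E n om → E (app g n) (SQ A))
    (h2 : ∀ n, E n om → ∃ a, E a A ∧ app g (suc n) = sx (app g n) a) :
    Fnc om A (dlm g) ∧ (∀ n, E n om → dmn (app g n) = n) ∧ ∀ n, E n om → Sub (app g n) (dlm g) := by
  have hd : ∀ n, E n om → dmn (app g n) = n := by
    refine om_ind (C := fun n => dmn (app g n) = n) inferInstance ?_ ?_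
    · rw [h0]
      refine ext fun z => ⟨fun hz => ?_, fun hz => absurd hz (not_mem_emp z)⟩
      rw [mem_dmn] at hz
      obtain ⟨y, hy⟩ := hz
      exact absurd hy (not_mem_emp _)
    · intro n hn ih
      obtain ⟨a, ha, he⟩ := h2 n hn
      rw [he, (hs.sxx (h1 n hn) ha).2.1, ih]
  have hstep : ∀ n, E n om → Sub (app g n) (app g (suc n)) := by
    intro n hn
    obtain ⟨a, ha, he⟩ := h2 n hn
    rw [he]
    exact (hs.sxx (h1 n hn) ha).2.2.1
  have hmono : ∀ n, E n om → ∀ m, E m n → Sub (app g m) (app g n) := by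
    refine om_ind (C := fun n => ∀ m, E m n → Sub (app g m) (app g n)) inferInstance ?_ ?_
    · intro m hm
      exact absurd hm (not_mem_emp m)
    · intro n hn ih m hm
      rw [mem_suc] at hm
      rcases hm with hm | rfl
      · exact Sub.trans (ih m hm) (hstep n hn)
      · exact hstep m hn
  have hcmp : ∀ m n, E m om → E n om → Sub (app g m) (app g n) ∨ Sub (app g n) (app g m) := by
    intro m n hm hn
    rcases (Ord_nat hm).tri (Ord_nat hn) with h | h | h
    · exact Or.inl (hmono n hn m h)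
    · rw [h]; exact Or.inl (Sub.refl _)
    · exact Or.inr (hmono m hm n h)
  have hf : ∀ n, E n om → Fnc n A (app g n) := by
    intro n hn
    have := (hs.dm (h1 n hn)).2
    rwa [hd n hn] at this
  refine ⟨⟨fun z hz => ?_, fun x hx => ?_, fun x y y' hy hy' => ?_⟩, hd, fun n hn z hz =>
    mem_dlm.2 ⟨n, hn, hz⟩⟩
  · obtain ⟨n, hn, hz⟩ := mem_dlm.1 hz
    obtain ⟨x, y, hx, hy, he⟩ := (hf n hn).1 z hz
    exact ⟨x, y, Trans_om n hn x hx, hy, he⟩
  · obtain ⟨y, hy⟩ := (hf (suc x) (suc_mem_om hx)).2.1 x (mem_suc.2 (Or.inr rfl))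
    exact ⟨y, mem_dlm.2 ⟨suc x, suc_mem_om hx, hy⟩⟩
  · obtain ⟨n, hn, hz⟩ := mem_dlm.1 hy
    obtain ⟨m, hm, hz'⟩ := mem_dlm.1 hy'
    rcases hcmp m n hm hn with h | h
    · exact (hf n hn).2.2 x y y' hz (h _ hz')
    · exact (hf m hm).2.2 x y y' (h _ hz) hz'

end

theorem sep_dia (hS : SQFStmt) (hD : DCXStmt) : DIAStmt := by
  intro M _ _ X t ht hX hXt
  have hs : SqFacts M := hS M
  by_contra hcon
  push Not at hcon
  obtain ⟨f, hf1, hf2⟩ := hX
  -- the relation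
  let R : M → M → Prop := fun s s' => ∃ n, E n om ∧ s' = sx s n ∧ ∀ a, E a X →
    E (opair a (dmn s)) f → ∀ z, E z BS → Sub s' z → t z ≠ a
  have hR : Cl2 R := by
    have : ∀ (k : ℕ) (u : (Fin k → M) → M) [DfT u], DfT (fun w : Fin k → M => t (u w)) :=
      fun k u hu => ht.comp1 hu
    infer_instance
  obtain ⟨g, hg0, hg⟩ := hD M (SQ om) emp R hR hs.nil (by
    intro s hsq
    by_cases h : ∃ a, E a X ∧ E (opair a (dmn s)) f
    · obtain ⟨a, ha, haf⟩ := h
      obtain ⟨n, hn, hz⟩ := hcon a s ha hsq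
      refine ⟨sx s n, (hs.sxx hsq hn).1, n, hn, rfl, fun a' ha' haf' z hz' hsub => ?_⟩
      have : a' = a := hf2 a' a (dmn s) ha' ha (hs.dm hsq).1 haf' haf
      rw [this]
      exact hz z hz' hsub
    · refine ⟨sx s emp, (hs.sxx hsq emp_mem_om).1, emp, emp_mem_om, rfl,
        fun a' ha' haf' => absurd ⟨a', ha', haf'⟩ h⟩)
  obtain ⟨hz, hd, hsub⟩ := dlm_facts hs (A := om) hg0 (fun n hn => (hg n hn).1) (fun n hn => by
    obtain ⟨a, ha, he, _⟩ := (hg n hn).2
    exact ⟨a, ha, he⟩)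
  have hzB : E (dlm g) BS := mem_BS.2 hz
  obtain ⟨k, hk, hkf⟩ := hf1 (t (dlm g)) (hXt _ hzB)
  obtain ⟨a, ha, he, hh⟩ := (hg k hk).2
  refine hh (t (dlm g)) (hXt _ hzB) ?_ (dlm g) hzB (hsub (suc k) (suc_mem_om hk)) rfl
  rw [hd k hk]
  exact hkf

end SW.SEP
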