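import Pool.Agent.H5.SEP.DIA

set_option linter.unusedVariables false
set_option synthInstance.maxSize 100000

namespace SW.SEP

open SW

section
variable {M : Type} [SetStr M] [ZF M]

/-- finite sets of natural numbers are bounded -/
theorem lim_bdd {x : M} (hx : Fnt x) (hs : Sub x om) : ∃ N, E N om ∧ ∀ y, E y x → E y N := by
  have h := finF.ind (fun x : M => Sub x om → ∃ N, E N om ∧ ∀ y, E y x → E y N) inferInstance
    (fun _ => ⟨emp, emp_mem_om, fun y hy => absurd hy (not_mem_emp y)⟩) ?_ x hx hs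
  · exact h
  · intro x a _ _ ih hsub
    obtain ⟨N, hN, hb⟩ := ih fun z hz => hsub z (mem_ins.2 (Or.inl hz))
    have ha : E a om := hsub a (mem_ins.2 (Or.inr rfl))
    by_cases h : E a N
    · refine ⟨N, hN, fun y hy => ?_⟩
      rw [mem_ins] at hy
      rcases hy with hy | rfl
      · exact hb y hy
      · exact h
    · have h1 : Sub N a := (Ord.not_mem_iff (Ord_nat ha) (Ord_nat hN)).1 h
      refine ⟨suc a, suc_mem_om ha, fun y hy => ?_⟩
      rw [mem_ins] at hy
      rw [mem_suc]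
      rcases hy with hy | rfl
      · exact Or.inl (h1 y (hb y hy))
      · exact Or.inr rfl

/-- the first case: some finite sequence `t` is contained in infinitely many `f n` but none of its
immediate successors is -/
theorem lim_case1 (hs : SqFacts M) {f : M → M} (hf : Fn1 f) (hfB : ∀ n, E n om → E (f n) BS)
    {A : M} (hA : Sub A om) {t : M} (ht : E t (SQ om))
    (h1 : ¬ Fnt (sep A (fun n => Sub t (f n))))
    (h2 : ∀ a, E a om → Fnt (sep A (fun n => Sub (sx t a) (f n)))) :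
    ∃ A' y, Sub A' A ∧ ¬ Fnt A' ∧ E y BS ∧ ∀ F, Fnt F →
    Fnt (sep A' (fun n => ∃ l, E l om ∧ E (res (f n) l) F ∧ ¬ res y l = res (f n) l)) := by
  obtain ⟨hm, htf⟩ := hs.dm ht
  set m := dmn t with hmd
  -- the extension by zeros
  have hy : Fnc om om (bun t (prod (diff om m) (sing emp))) := by
    refine ⟨fun z hz => ?_, fun x hx => ?_, fun x y y' hy hy' => ?_⟩
    · rw [mem_bun] at hz
      rcases hz with hz | hz
      · obtain ⟨x, y, hx, hy, he⟩ := htf.1 z hz
        exact ⟨x, y, Trans_om m hm x hx, hy, he⟩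
      · rw [mem_prod'] at hz
        obtain ⟨x, y, hx, hy, he⟩ := hz
        rw [mem_diff] at hx
        rw [mem_sing] at hy
        exact ⟨x, y, hx.1, by rw [hy]; exact emp_mem_om, he⟩
    · by_cases h : E x m
      · obtain ⟨y, hy⟩ := htf.2.1 x h
        exact ⟨y, mem_bun.2 (Or.inl hy)⟩
      · exact ⟨emp, mem_bun.2 (Or.inr (mem_prod.2 ⟨mem_diff.2 ⟨hx, h⟩, mem_sing.2 rfl⟩))⟩
    · rw [mem_bun, mem_prod, mem_diff, mem_sing] at hy hy'
      rcases hy with hy | ⟨⟨_, hy⟩, hy2⟩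
      · rcases hy' with hy' | ⟨⟨_, hy'⟩, _⟩
        · exact htf.2.2 x y y' hy hy'
        · exact absurd (hs.fapp' htf hy).1 hy'
      · rcases hy' with hy' | ⟨_, hy2'⟩
        · exact absurd (hs.fapp' htf hy').1 hy
        · rw [hy2, hy2']
  have hty : Sub t (bun t (prod (diff om m) (sing emp))) := fun z hz => mem_bun.2 (Or.inl hz)
  refine ⟨sep A (fun n => Sub t (f n)), bun t (prod (diff om m) (sing emp)),
    fun z hz => (mem_sep.1 hz).1, h1, mem_BS.2 hy, fun F hF => ?_⟩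
  have hfin : Fnt (sUn (img (sep F (fun u => E (app u m) om))
      (fun u => sep A (fun n => Sub (sx t (app u m)) (f n))))) := by
    refine finF.sUn (finF.img _ inferInstance (finF.sub hF fun z hz => (mem_sep.1 hz).1)) ?_
    intro w hw
    rw [mem_img] at hw
    obtain ⟨u, hu, rfl⟩ := hw
    exact h2 _ (mem_sep.1 hu).2
  refine finF.sub hfin fun n hn => ?_
  rw [mem_sep] at hn
  obtain ⟨hn1, l, hl, hlF, hne⟩ := hn
  rw [mem_sep] at hn1
  obtain ⟨hnA, htn⟩ := hn1
  have hfn : Fnc om om (f n) := mem_BS.1 (hfB n (hA n hnA))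
  have hml : E m l := by
    by_contra hcon
    have hlm : Sub l m := (Ord.not_mem_iff (Ord_nat hm) (Ord_nat hl)).1 hcon
    have e1 := (hs.sub ht hfn htn).2
    have e2 := (hs.sub ht hy hty).2
    apply hne
    rw [← hs.rr (v := bun t (prod (diff om m) (sing emp))) hlm, ← e2, e1, hs.rr hlm]
  have hfl : Fnc l om (res (f n) l) := hs.frs hfn (Trans_om l hl)
  have hap := hs.fapp hfl hml
  rw [mem_sUn]
  refine ⟨_, mem_img.2 ⟨res (f n) l, mem_sep.2 ⟨hlF, hap.2⟩, rfl⟩, ?_⟩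
  rw [mem_sep]
  refine ⟨hnA, fun z hz => ?_⟩
  unfold sx at hz
  rw [mem_ins] at hz
  rcases hz with hz | rfl
  · exact htn z hz
  · exact (opair_mem_res.1 hap.1).1

end

section
variable {M : Type} [SetStr M] [ZF M]

/-- the second case -/
theorem lim_case2 (hs : SqFacts M) {f : M → M} (hf : Fn1 f) (hfB : ∀ n, E n om → E (f n) BS)
    {A : M} (hA : Sub A om) {y : M} (hy : E y BS)
    (h1 : ∀ l, E l om → ¬ Fnt (sep A (fun n => Sub (res y l) (f n)))) :
    ∃ A', Sub A' A ∧ ¬ Fnt A' ∧ ∀ F, Fnt F →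
    Fnt (sep A' (fun n => ∃ l, E l om ∧ E (res (f n) l) F ∧ ¬ res y l = res (f n) l)) := by
  have hyf := mem_BS.1 hy
  let μ : M → M := fun l => the (fun n => (E n A ∧ Sub l n ∧ Sub (res y l) (f n)) ∧
    ∀ n', E n' n → ¬ (E n' A ∧ Sub l n' ∧ Sub (res y l) (f n')))
  have hfc : ∀ (k : ℕ) (u : (Fin k → M) → M) [DfT u], DfT (fun w : Fin k → M => f (u w)) :=
    fun k u hu => hf.comp1 hu
  have hμ : Fn1 μ := by
    show Fn1 (fun l => the (fun n => (E n A ∧ Sub l n ∧ Sub (res y l) (f n)) ∧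
      ∀ n', E n' n → ¬ (E n' A ∧ Sub l n' ∧ Sub (res y l) (f n'))))
    infer_instance
  have hμs : ∀ l, E l om → E (μ l) A ∧ Sub l (μ l) ∧ Sub (res y l) (f (μ l)) := by
    intro l hl
    have hex : ∃ n, E n A ∧ Sub l n ∧ Sub (res y l) (f n) := by
      by_contra hcon
      apply h1 l hl
      refine finF.sub (finF.nat hl) fun n hn => ?_
      rw [mem_sep] at hn
      by_contra h
      exact hcon ⟨n, hn.1, (Ord.not_mem_iff (Ord_nat (hA n hn.1)) (Ord_nat hl)).1 h, hn.2⟩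
    obtain ⟨n, hn⟩ := hex
    obtain ⟨b, hb, hb1, hb2, _⟩ := ord_min
      (C := fun n => E n A ∧ Sub l n ∧ Sub (res y l) (f n)) inferInstance
      (Ord_nat (hA n hn.1)) hn
    have h3 := the_spec (p := fun n => (E n A ∧ Sub l n ∧ Sub (res y l) (f n)) ∧
      ∀ n', E n' n → ¬ (E n' A ∧ Sub l n' ∧ Sub (res y l) (f n'))) ⟨b, ⟨hb1, hb2⟩, ?_⟩
    · exact h3.1
    · rintro c ⟨hc1, hc2⟩
      rcases (Ord_nat (hA c hc1.1)).tri (Ord_nat (hA b hb1.1)) with h | h | h
      · exact absurd hc1 (hb2 c h)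
      · exact h
      · exact absurd hb1 (hc2 b h)
  refine ⟨img om μ, fun z hz => ?_, fun hfin => ?_, fun F hF => ?_⟩
  · rw [mem_img' hμ] at hz
    obtain ⟨l, hl, rfl⟩ := hz
    exact (hμs l hl).1
  · obtain ⟨N, hN, hb⟩ := lim_bdd hfin fun z hz => by
      rw [mem_img' hμ] at hz
      obtain ⟨l, hl, rfl⟩ := hz
      exact hA _ (hμs l hl).1
    have h2 := hb (μ N) ((mem_img' hμ).2 ⟨N, hN, rfl⟩)
    exact not_mem_self _ ((hμs N hN).2.1 _ h2)
  · -- a bound for the domains of the members of `F`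
    have hd : Fnt (img (sep F (fun u => E (dmn u) om)) (fun u => dmn u)) :=
      finF.img _ inferInstance (finF.sub hF fun z hz => (mem_sep.1 hz).1)
    obtain ⟨l0, hl0, hb⟩ := lim_bdd hd fun z hz => by
      rw [mem_img] at hz
      obtain ⟨u, hu, rfl⟩ := hz
      exact (mem_sep.1 hu).2
    have hfin : Fnt (img l0 μ) := finF.img _ hμ (finF.nat hl0)
    refine finF.sub hfin fun n hn => ?_
    rw [mem_sep, mem_img' hμ] at hn
    obtain ⟨⟨k, hk, rfl⟩, l, hl, hlF, hne⟩ := hn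
    have hfn : Fnc om om (f (μ k)) := mem_BS.1 (hfB _ (hA _ (hμs k hk).1))
    have hdl : dmn (res (f (μ k)) l) = l := (hs.rsi hfn hl).2
    have hll : E l l0 := by
      refine hb l ?_
      rw [mem_img]
      refine ⟨res (f (μ k)) l, mem_sep.2 ⟨hlF, ?_⟩, hdl.symm⟩
      rw [hdl]; exact hl
    rw [mem_img' hμ]
    refine ⟨k, ?_, rfl⟩
    by_contra hkl
    have hlk : Sub l k := by
      have h3 : Sub l0 k := (Ord.not_mem_iff (Ord_nat hk) (Ord_nat hl0)).1 hkl
      exact Ord.sub_of_mem (Ord_nat hk) (h3 l hll)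
    have h4 := (hs.sub (hs.rsi hyf hk).1 hfn (hμs k hk).2.2).2
    rw [(hs.rsi hyf hk).2] at h4
    apply hne
    rw [← hs.rr (v := y) hlk, h4, hs.rr hlk]

end

theorem sep_lim1 (hS : SQFStmt) (hD : DCXStmt) : LIM1Stmt := by
  intro M _ _ f hf hfB A hA hAi
  have hs : SqFacts M := hS M
  have hfc : ∀ (k : ℕ) (u : (Fin k → M) → M) [DfT u], DfT (fun w : Fin k → M => f (u w)) :=
    fun k u hu => hf.comp1 hu
  by_cases hc : ∃ t, E t (SQ om) ∧ ¬ Fnt (sep A (fun n => Sub t (f n))) ∧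
      ∀ a, E a om → Fnt (sep A (fun n => Sub (sx t a) (f n)))
  · obtain ⟨t, ht, h1, h2⟩ := hc
    exact lim_case1 hs hf hfB hA ht h1 h2
  · push Not at hc
    have hm : ∀ s, E s (sep (SQ om) (fun s => ¬ Fnt (sep A (fun n => Sub s (f n))))) ↔
        E s (SQ om) ∧ ¬ Fnt (sep A (fun n => Sub s (f n))) := fun s => mem_sep
    obtain ⟨g, hg0, hg⟩ := hD M (sep (SQ om) (fun s => ¬ Fnt (sep A (fun n => Sub s (f n)))))
      emp (fun s s' => ∃ a, E a om ∧ s' = sx s a) inferInstance ((hm emp).2 ⟨hs.nil, fun h => hAi (by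
        have : sep A (fun n => Sub emp (f n)) = A := ext fun z => by
          rw [mem_sep]
          exact ⟨fun h => h.1, fun h => ⟨h, fun w hw => absurd hw (not_mem_emp w)⟩⟩
        rwa [this] at h)⟩) (by
        intro s hsT
        obtain ⟨hsq, hsi⟩ := (hm s).1 hsT
        obtain ⟨a, ha, hai⟩ := hc s hsq hsi
        exact ⟨sx s a, (hm _).2 ⟨(hs.sxx hsq ha).1, hai⟩, a, ha, rfl⟩)
    obtain ⟨hz, hd, hsub⟩ := dlm_facts hs (A := om) hg0 (fun n hn => ((hm _).1 (hg n hn).1).1)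
      (fun n hn => (hg n hn).2)
    have hres : ∀ l, E l om → res (dlm g) l = app g l := by
      intro l hl
      have h3 := (hs.sub ((hm _).1 (hg l hl).1).1 hz (hsub l hl)).2
      rw [hd l hl] at h3
      exact h3.symm
    obtain ⟨A', h1, h2, h3⟩ := lim_case2 hs hf hfB hA (mem_BS.2 hz) (fun l hl => by
      have h4 := ((hm _).1 (hg l hl).1).2
      rwa [← hres l hl] at h4)
    exact ⟨A', dlm g, h1, h2, mem_BS.2 hz, h3⟩

end SW.SEP
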