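import Pool.Agent.H63.SEP.Stmts

set_option linter.unusedVariables false
set_option synthInstance.maxSize 100000

namespace SW.SEP

open SW

section
variable {M : Type} [SetStr M] [ZF M]

theorem sqf_fdm {a b v : M} (h : Fnc a b v) : dmn v = a := by
  refine ext fun x => ?_
  rw [mem_dmn]
  constructor
  · rintro ⟨y, hy⟩
    obtain ⟨x', y', hx, _, he⟩ := h.1 _ hy
    rw [opair_inj] at he
    rw [he.1]; exact hx
  · intro hx
    exact h.2.1 x hx

theorem sqf_fext {a b v b' v' : M} (h : Fnc a b v) (h' : Fnc a b' v')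
    (hh : ∀ x y, E (opair x y) v → E (opair x y) v') : v = v' := by
  refine ext fun z => ⟨fun hz => ?_, fun hz => ?_⟩
  · obtain ⟨x, y, _, _, rfl⟩ := h.1 _ hz
    exact hh x y hz
  · obtain ⟨x, y, hx, _, rfl⟩ := h'.1 _ hz
    obtain ⟨y', hy'⟩ := h.2.1 x hx
    have := h'.2.2 x y y' hz (hh _ _ hy')
    rw [this]; exact hy'

theorem sqf_fapp' {a b v x y : M} (h : Fnc a b v) (hxy : E (opair x y) v) :
    E x a ∧ E y b ∧ app v x = y := by
  obtain ⟨x', y', hx, hy, he⟩ := h.1 _ hxy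
  rw [opair_inj] at he
  obtain ⟨rfl, rfl⟩ := he
  exact ⟨hx, hy, the_eq hxy fun z hz => h.2.2 x z y hz hxy⟩

theorem sqf_fapp {a b v x : M} (h : Fnc a b v) (hx : E x a) :
    E (opair x (app v x)) v ∧ E (app v x) b := by
  obtain ⟨y, hy⟩ := h.2.1 x hx
  obtain ⟨_, h2, h3⟩ := sqf_fapp' h hy
  rw [h3]
  exact ⟨hy, h2⟩

theorem sqf_frs {a b v c : M} (h : Fnc a b v) (hc : Sub c a) : Fnc c b (res v c) := by
  refine ⟨fun z hz => ?_, fun x hx => ?_, fun x y y' h1 h2 => ?_⟩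
  · rw [mem_res] at hz
    obtain ⟨hz, x, y, hx, rfl⟩ := hz
    obtain ⟨x', y', _, hy, he⟩ := h.1 _ hz
    rw [opair_inj] at he
    obtain ⟨rfl, rfl⟩ := he
    exact ⟨x, y, hx, hy, rfl⟩
  · obtain ⟨y, hy⟩ := h.2.1 x (hc x hx)
    exact ⟨y, opair_mem_res.2 ⟨hy, hx⟩⟩
  · exact h.2.2 x y y' (opair_mem_res.1 h1).1 (opair_mem_res.1 h2).1

theorem sqf_fgr {a b : M} (f : M → M) (hf : Fn1 f) (h : ∀ x, E x a → E (f x) b) :
    Fnc a b (gr a f) := by
  refine ⟨fun z hz => ?_, fun x hx => ⟨f x, (opair_mem_gr hf).2 ⟨hx, rfl⟩⟩,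
    fun x y y' h1 h2 => ?_⟩
  · rw [mem_gr' hf] at hz
    obtain ⟨y, hy, rfl⟩ := hz
    exact ⟨y, f y, hy, h y hy, rfl⟩
  · rw [((opair_mem_gr hf).1 h1).2, ((opair_mem_gr hf).1 h2).2]

theorem sqf_fnc_emp (A : M) : Fnc emp A emp :=
  ⟨fun z hz => absurd hz (not_mem_emp z), fun x hx => absurd hx (not_mem_emp x),
    fun x y y' h => absurd h (not_mem_emp _)⟩

theorem sqf_nil {A : M} : E emp (SQ A) := mem_SQ.2 ⟨emp, emp_mem_om, sqf_fnc_emp A⟩

theorem sqf_dm {A v : M} (h : E v (SQ A)) : E (dmn v) om ∧ Fnc (dmn v) A v := by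
  obtain ⟨n, hn, hv⟩ := mem_SQ.1 h
  rw [sqf_fdm hv]
  exact ⟨hn, hv⟩

theorem sqf_up {A A' v : M} (h : Sub A A') (hv : E v (SQ A)) : E v (SQ A') := by
  obtain ⟨n, hn, h1, h2, h3⟩ := mem_SQ.1 hv
  refine mem_SQ.2 ⟨n, hn, fun z hz => ?_, h2, h3⟩
  obtain ⟨x, y, hx, hy, he⟩ := h1 z hz
  exact ⟨x, y, hx, h y hy, he⟩

theorem sqf_rs {A v n : M} (h : E v (SQ A)) (hn : E n om) (hs : Sub n (dmn v)) :
    E (res v n) (SQ A) ∧ dmn (res v n) = n := by
  have h1 := sqf_frs (sqf_dm h).2 hs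
  exact ⟨mem_SQ.2 ⟨n, hn, h1⟩, sqf_fdm h1⟩

theorem sqf_rsi {A u n : M} (h : Fnc om A u) (hn : E n om) :
    E (res u n) (SQ A) ∧ dmn (res u n) = n := by
  have h1 := sqf_frs h (Trans_om n hn)
  exact ⟨mem_SQ.2 ⟨n, hn, h1⟩, sqf_fdm h1⟩

theorem sqf_res_fnc {a b v : M} (h : Fnc a b v) : res v a = v := by
  refine ext fun z => ⟨fun hz => (mem_res.1 hz).1, fun hz => ?_⟩
  obtain ⟨x, y, hx, _, he⟩ := h.1 z hz
  exact mem_res.2 ⟨hz, x, y, hx, he⟩

theorem sqf_rself {A v : M} (h : E v (SQ A)) : res v (dmn v) = v := sqf_res_fnc (sqf_dm h).2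

theorem sqf_rr {v m n : M} (h : Sub m n) : res (res v n) m = res v m := by
  refine ext fun z => ?_
  rw [mem_res, mem_res, mem_res]
  constructor
  · rintro ⟨⟨h1, _⟩, h2⟩
    exact ⟨h1, h2⟩
  · rintro ⟨h1, x, y, hx, he⟩
    exact ⟨⟨h1, x, y, h x hx, he⟩, x, y, hx, he⟩

/-- a function contained in a function is a restriction -/
theorem sqf_subf {a b c d u w : M} (hu : Fnc a b u) (hw : Fnc c d w) (h : Sub u w) :
    Sub a c ∧ u = res w a := by
  have h1 : Sub a c := by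
    intro x hx
    obtain ⟨y, hy⟩ := hu.2.1 x hx
    exact (sqf_fapp' hw (h _ hy)).1
  refine ⟨h1, ?_⟩
  refine sqf_fext hu (sqf_frs hw h1) fun x y hxy => ?_
  exact opair_mem_res.2 ⟨h _ hxy, (sqf_fapp' hu hxy).1⟩

theorem sqf_sub {A u w a : M} (hu : E u (SQ A)) (hw : Fnc a A w) (h : Sub u w) :
    Sub (dmn u) a ∧ u = res w (dmn u) := sqf_subf (sqf_dm hu).2 hw h

theorem sqf_res_mono {w m n : M} (h : Sub m n) : Sub (res w m) (res w n) := by
  intro z hz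
  rw [mem_res] at hz ⊢
  obtain ⟨h1, x, y, hx, he⟩ := hz
  exact ⟨h1, x, y, h x hx, he⟩

theorem sqf_lin {m n : M} (hm : E m om) (hn : E n om) : Sub m n ∨ Sub n m := by
  rcases (Ord_nat hm).tri (Ord_nat hn) with h | h | h
  · exact Or.inl (Ord.sub_of_mem (Ord_nat hn) h)
  · rw [h]; exact Or.inl (Sub.refl _)
  · exact Or.inr (Ord.sub_of_mem (Ord_nat hm) h)

theorem sqf_cmp {A u v w a : M} (hu : E u (SQ A)) (hv : E v (SQ A)) (hw : Fnc a A w)
    (h : Sub u w) (h' : Sub v w) : Sub u v ∨ Sub v u := by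
  have h1 := (sqf_sub hu hw h).2
  have h2 := (sqf_sub hv hw h').2
  rcases sqf_lin (sqf_dm hu).1 (sqf_dm hv).1 with h3 | h3
  · left
    rw [h1, h2]
    exact sqf_res_mono h3
  · right
    rw [h1, h2]
    exact sqf_res_mono h3

theorem sqf_eqd {A u v : M} (hu : E u (SQ A)) (hv : E v (SQ A)) (h : Sub u v)
    (hd : dmn u = dmn v) : u = v := by
  have h1 := (sqf_sub hu (sqf_dm hv).2 h).2
  rw [h1, hd]
  exact sqf_rself hv

theorem sqf_cmpd {A u v : M} (hu : E u (SQ A)) (hv : E v (SQ A)) (h : Sub u v) :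
    u = v ∨ E (dmn u) (dmn v) := by
  have h1 := (sqf_sub hu (sqf_dm hv).2 h).1
  rcases (Ord.sub_iff (Ord_nat (sqf_dm hu).1) (Ord_nat (sqf_dm hv).1)).1 h1 with h2 | h2
  · exact Or.inr h2
  · exact Or.inl (sqf_eqd hu hv h h2)

theorem sqf_sx_fnc {n A v a : M} (hv : Fnc n A v) (hn : E n om) (ha : E a A) :
    Fnc (suc n) A (ins (opair n a) v) := by
  refine ⟨fun z hz => ?_, fun x hx => ?_, fun x y y' h1 h2 => ?_⟩
  · rw [mem_ins] at hz
    rcases hz with hz | rfl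
    · obtain ⟨x, y, hx, hy, he⟩ := hv.1 z hz
      exact ⟨x, y, mem_suc.2 (Or.inl hx), hy, he⟩
    · exact ⟨n, a, mem_suc.2 (Or.inr rfl), ha, rfl⟩
  · rw [mem_suc] at hx
    rcases hx with hx | rfl
    · obtain ⟨y, hy⟩ := hv.2.1 x hx
      exact ⟨y, mem_ins.2 (Or.inl hy)⟩
    · exact ⟨a, mem_ins.2 (Or.inr rfl)⟩
  · rw [mem_ins, opair_inj] at h1 h2
    rcases h1 with h1 | ⟨rfl, rfl⟩
    · rcases h2 with h2 | ⟨rfl, rfl⟩
      · exact hv.2.2 x y y' h1 h2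
      · exact absurd (sqf_fapp' hv h1).1 (not_mem_self _)
    · rcases h2 with h2 | ⟨_, rfl⟩
      · exact absurd (sqf_fapp' hv h2).1 (not_mem_self _)
      · rfl

theorem sqf_sxx {A v a : M} (h : E v (SQ A)) (ha : E a A) : E (sx v a) (SQ A) ∧
    dmn (sx v a) = suc (dmn v) ∧ Sub v (sx v a) ∧ res (sx v a) (dmn v) = v := by
  obtain ⟨hn, hv⟩ := sqf_dm h
  have h1 : Fnc (suc (dmn v)) A (sx v a) := sqf_sx_fnc hv hn ha
  have h2 : Sub v (sx v a) := fun z hz => mem_ins.2 (Or.inl hz)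
  refine ⟨mem_SQ.2 ⟨_, suc_mem_om hn, h1⟩, sqf_fdm h1, h2, ?_⟩
  exact ((sqf_subf hv h1 h2).2).symm

theorem sqf_sxs {A v a u : M} (h : E v (SQ A)) (ha : E a A) (hu : E u (SQ A))
    (hs : Sub u (sx v a)) : u = sx v a ∨ Sub u v := by
  obtain ⟨h1, h2, h3, h4⟩ := sqf_sxx h ha
  rcases sqf_cmpd hu h1 hs with h5 | h5
  · exact Or.inl h5
  · right
    rw [h2, mem_suc] at h5
    have h6 : Sub (dmn u) (dmn v) := by
      rcases h5 with h5 | h5
      · exact Ord.sub_of_mem (Ord_nat (sqf_dm h).1) h5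
      · rw [h5]; exact Sub.refl _
    have h7 := (sqf_sub hu (sqf_dm h1).2 hs).2
    intro z hz
    rw [h7] at hz
    have h8 := sqf_res_mono (w := sx v a) h6 z hz
    rw [h4] at h8
    exact h8

theorem sqf_sxr {A u n a : M} (hu : Fnc om A u) (hn : E n om) (ha : E (opair n a) u) :
    res u (suc n) = sx (res u n) a := by
  have hd := (sqf_rsi hu hn).2
  refine ext fun z => ?_
  unfold sx
  rw [mem_ins, mem_res, mem_res, hd]
  constructor
  · rintro ⟨h1, x, y, hx, rfl⟩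
    rw [mem_suc] at hx
    rcases hx with hx | rfl
    · exact Or.inl ⟨h1, x, y, hx, rfl⟩
    · right
      rw [hu.2.2 _ _ _ h1 ha]
  · rintro (⟨h1, x, y, hx, rfl⟩ | rfl)
    · exact ⟨h1, x, y, mem_suc.2 (Or.inl hx), rfl⟩
    · exact ⟨ha, n, a, mem_suc.2 (Or.inr rfl), rfl⟩

end

theorem sep_sqf : SQFStmt := fun M _ _ =>
  { fdm := sqf_fdm
    fext := sqf_fext
    fapp := sqf_fapp
    fapp' := sqf_fapp'
    frs := sqf_frs
    fgr := sqf_fgr
    nil := sqf_nil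
    dm := sqf_dm
    up := sqf_up
    rs := sqf_rs
    rsi := sqf_rsi
    rself := sqf_rself
    rr := sqf_rr
    sub := sqf_sub
    cmp := sqf_cmp
    cmpd := sqf_cmpd
    eqd := sqf_eqd
    sxx := sqf_sxx
    sxs := sqf_sxs
    sxr := sqf_sxr }

end SW.SEP
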