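import Pool.Agent.H63.SEP.Stmts

set_option linter.unusedVariables false
set_option synthInstance.maxSize 100000

namespace SW.SEP

open SW

section
variable {M : Type} [SetStr M] [ZF M]

private theorem trec_not_mem_tc (x : M) : ¬ E x (tc x) := by
  refine mem_induction (C := fun x => ¬ E x (tc x)) inferInstance ?_ x
  intro x ih hx
  have h3 : Sub (tc x) (sep (tc x) (fun z => ∃ y, E y x ∧ (z = y ∨ E z (tc y)))) := by
    refine tc_min ?_ ?_
    · intro z hz
      rw [mem_sep]
      exact ⟨sub_tc x z hz, z, hz, Or.inl rfl⟩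
    · intro z hz w hw
      rw [mem_sep] at hz ⊢
      obtain ⟨hz, y, hy, h⟩ := hz
      refine ⟨Trans_tc x z hz w hw, y, hy, Or.inr ?_⟩
      rcases h with rfl | h
      · exact sub_tc _ _ hw
      · exact Trans_tc y z h w hw
  have h4 := h3 x hx
  rw [mem_sep] at h4
  obtain ⟨_, y, hy, rfl | h5⟩ := h4
  · exact not_mem_self _ hy
  · exact ih y hy (Trans_tc y x h5 y hy)

private theorem trec_tc_iff (x z : M) : E z (tc x) ↔ ∃ y, E y x ∧ (z = y ∨ E z (tc y)) := by
  constructor
  · intro hz
    have h3 : Sub (tc x) (sep (tc x) (fun z => ∃ y, E y x ∧ (z = y ∨ E z (tc y)))) := by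
      refine tc_min ?_ ?_
      · intro z hz
        rw [mem_sep]
        exact ⟨sub_tc x z hz, z, hz, Or.inl rfl⟩
      · intro z hz w hw
        rw [mem_sep] at hz ⊢
        obtain ⟨hz, y, hy, h⟩ := hz
        refine ⟨Trans_tc x z hz w hw, y, hy, Or.inr ?_⟩
        rcases h with rfl | h
        · exact sub_tc _ _ hw
        · exact Trans_tc y z h w hw
    have h4 := h3 z hz
    rw [mem_sep] at h4
    exact h4.2
  · rintro ⟨y, hy, rfl | h⟩
    · exact sub_tc _ _ hy
    · exact tc_min (fun w hw => Trans_tc x y (sub_tc x y hy) w hw) (Trans_tc x) z h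

end

theorem sep_trec : TRECStmt := by
  intro M _ _ F hF x
  set G : M → M → M := fun x g => ins (opair x (F x (sUn (img x (fun y => app g y)))))
    (sUn (img x (fun y => app g y))) with hG
  have hFc : ∀ (k : ℕ) (u t : (Fin k → M) → M) [DfT u] [DfT t],
      DfT (fun w : Fin k → M => F (u w) (t w)) := fun k u t hu ht =>
    hF.comp2 hu ht
  have hG2 : Fn2 G := by
    rw [hG]
    infer_instance
  have hm : Fn1 (fun x : M => mrec G x) := mrec_df
  have ht : Fn1 (fun x : M => trec F x) := trec_df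
  have htd : ∀ x : M, trec F x = app (mrec G x) x := fun x => rfl
  -- the value of the recursion
  have h1 : ∀ x : M, mrec G x = ins (opair x (F x (sUn (img x (fun y => mrec G y)))))
      (sUn (img x (fun y => mrec G y))) := by
    intro x
    have e1 : img x (fun y => app (gr x (mrec G)) y) = img x (fun y => mrec G y) := by
      refine ext fun z => ?_
      rw [mem_img, mem_img' hm]
      constructor
      · rintro ⟨y, hy, rfl⟩
        exact ⟨y, hy, app_gr hm hy⟩
      · rintro ⟨y, hy, rfl⟩
        exact ⟨y, hy, (app_gr hm hy).symm⟩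
    have e2 := mrec_eq hG2 x
    rw [hG] at e2
    simp only at e2
    rw [← hG] at e2
    rw [e2, e1]
  have key : ∀ x : M, mrec G x = gr (ins x (tc x)) (fun y => trec F y) := by
    refine mem_induction (C := fun x : M => mrec G x = gr (ins x (tc x)) (fun y => trec F y))
      inferInstance ?_
    intro x ih
    have h2 : sUn (img x (fun y => mrec G y)) = gr (tc x) (fun y => trec F y) := by
      refine ext fun z => ?_
      rw [mem_sUn, mem_gr' ht]
      constructor
      · rintro ⟨w, hw, hz⟩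
        rw [mem_img' hm] at hw
        obtain ⟨y, hy, rfl⟩ := hw
        rw [ih y hy, mem_gr' ht] at hz
        obtain ⟨u, hu, rfl⟩ := hz
        refine ⟨u, (trec_tc_iff x u).2 ⟨y, hy, ?_⟩, rfl⟩
        rw [mem_ins] at hu
        exact hu.symm
      · rintro ⟨u, hu, rfl⟩
        obtain ⟨y, hy, h3⟩ := (trec_tc_iff x u).1 hu
        refine ⟨mrec G y, (mem_img' hm).2 ⟨y, hy, rfl⟩, ?_⟩
        rw [ih y hy, mem_gr' ht]
        exact ⟨u, by rw [mem_ins]; exact h3.symm, rfl⟩
    have h3 := h1 x
    rw [h2] at h3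
    have h4 : trec F x = F x (gr (tc x) (fun y => trec F y)) := by
      rw [htd, h3]
      refine the_eq (by rw [mem_ins]; exact Or.inr rfl) fun z hz => ?_
      rw [mem_ins] at hz
      rcases hz with hz | hz
      · exact absurd ((opair_mem_gr ht).1 hz).1 (trec_not_mem_tc x)
      · exact (opair_inj.1 hz).2
    rw [h3, ← h4]
    refine ext fun z => ?_
    rw [mem_ins, mem_gr' ht, mem_gr' ht]
    constructor
    · rintro (⟨y, hy, rfl⟩ | rfl)
      · exact ⟨y, by rw [mem_ins]; exact Or.inl hy, rfl⟩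
      · exact ⟨x, by rw [mem_ins]; exact Or.inr rfl, rfl⟩
    · rintro ⟨y, hy, rfl⟩
      rw [mem_ins] at hy
      rcases hy with hy | rfl
      · exact Or.inl ⟨y, hy, rfl⟩
      · exact Or.inr rfl
  -- the final step
  have h2 : sUn (img x (fun y => mrec G y)) = gr (tc x) (fun y => trec F y) := by
    refine ext fun z => ?_
    rw [mem_sUn, mem_gr' ht]
    constructor
    · rintro ⟨w, hw, hz⟩
      rw [mem_img' hm] at hw
      obtain ⟨y, hy, rfl⟩ := hw
      rw [key y, mem_gr' ht] at hz
      obtain ⟨u, hu, rfl⟩ := hz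
      refine ⟨u, (trec_tc_iff x u).2 ⟨y, hy, ?_⟩, rfl⟩
      rw [mem_ins] at hu
      exact hu.symm
    · rintro ⟨u, hu, rfl⟩
      obtain ⟨y, hy, h3⟩ := (trec_tc_iff x u).1 hu
      refine ⟨mrec G y, (mem_img' hm).2 ⟨y, hy, rfl⟩, ?_⟩
      rw [key y, mem_gr' ht]
      exact ⟨u, by rw [mem_ins]; exact h3.symm, rfl⟩
  have h3 := h1 x
  rw [h2] at h3
  rw [htd x, h3]
  refine the_eq (by rw [mem_ins]; exact Or.inr rfl) fun z hz => ?_
  rw [mem_ins] at hz
  rcases hz with hz | hz
  · exact absurd ((opair_mem_gr ht).1 hz).1 (trec_not_mem_tc x)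
  · exact (opair_inj.1 hz).2

end SW.SEP
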